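import Pool.Agent.H92.KT.Ex

/-!
# Hyperplane families of perfect matroid designs with given intersection sizes

Definitions (`Pool/Agent/H92/KT/Ex.lean`): `IsPMD`, `IsHyperplane`, `NotAddable`,
`HyperplanesMaximal`, `HasSizes`.
-/

open Set

namespace Pool.Agent.Results.MP_f8e529_co.FixedT

open Pool.Agent.H92.KT.Ex

/-- For every rank `r` and all sizes `s 0, …, s (r-2)` there is a `k₀` such that the hyperplane
family of every perfect matroid design of rank `r` with these sizes of the flats of rank at most
`r - 2` and with hyperplanes of at least `k₀` points, on any number `n` of points, is a maximal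
`A(T,k,v)`. -/
theorem result (r : ℕ) (s : ℕ → ℕ) : ∃ k₀ : ℕ, ∀ (n : ℕ) (M : Matroid (Fin n)), IsPMD M →
    M.eRk M.E = (r : ℕ∞) → HasSizes M s (r - 2) →
    (∀ H, IsHyperplane M H → k₀ ≤ H.ncard) → HyperplanesMaximal M :=
  fixed r s

end Pool.Agent.Results.MP_f8e529_co.FixedT
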