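import Mathlib
import Pool.Agent.H69.PmdBound
import Pool.Agent.H92.PY.Asm

/-!
# Maximality of hyperplane families of perfect matroid designs outside a narrow window
-/

open Set

namespace Pool.Agent.Results.MP_f8e529_co.NarrowWindow

/-- A perfect matroid design on the ground set `Fin n`, without loops and parallel elements. -/
def IsPMD {n : ℕ} (M : Matroid (Fin n)) : Prop :=
  M.E = univ ∧
  (∀ F₁ F₂ : Set (Fin n), M.IsFlat F₁ → M.IsFlat F₂ → M.eRk F₁ = M.eRk F₂ →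
    F₁.ncard = F₂.ncard) ∧
  (∀ F : Set (Fin n), M.IsFlat F → M.eRk F = 0 → F.ncard = 0) ∧
  (∀ F : Set (Fin n), M.IsFlat F → M.eRk F = 1 → F.ncard = 1)

/-- `H` is a hyperplane: a flat of rank `r - 1`. -/
def IsHyperplane {n : ℕ} (M : Matroid (Fin n)) (H : Set (Fin n)) : Prop :=
  M.IsFlat H ∧ M.eRk H + 1 = M.eRk M.E

/-- `B` cannot be added to the hyperplane family: some hyperplane `H` meets `B` in a number of
points which is not the size of a flat of rank at most `r - 2`. -/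
def NotAddable {n : ℕ} (M : Matroid (Fin n)) (B : Set (Fin n)) : Prop :=
  ∃ H : Set (Fin n), IsHyperplane M H ∧
    ∀ F : Set (Fin n), M.IsFlat F → M.eRk F + 2 ≤ M.eRk M.E → (B ∩ H).ncard ≠ F.ncard

/-- The hyperplane family is a maximal `A(T,k,v)`. -/
def HyperplanesMaximal {n : ℕ} (M : Matroid (Fin n)) : Prop :=
  ∀ B H₀ : Set (Fin n), IsHyperplane M H₀ → B.ncard = H₀.ncard → ¬ IsHyperplane M B →
    NotAddable M B

section

open Pool.Agent.H69.Pmd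

variable {n : ℕ} {M : Matroid (Fin n)}

theorem exists_isPmd (h : IsPMD M) {r : ℕ} (hr : M.eRk M.E = (r : ℕ∞)) :
    ∃ σ : ℕ → ℕ, IsPmd M r σ := by
  classical
  obtain ⟨hE, hpmd, h0, h1⟩ := h
  refine ⟨fun i => if hi : ∃ F, M.IsFlat F ∧ M.eRk F = (i : ℕ∞) then hi.choose.ncard else 0,
    hE, by rw [← hE]; exact hr, ?_⟩
  intro F i hF hFi
  have hi : ∃ F, M.IsFlat F ∧ M.eRk F = (i : ℕ∞) := ⟨F, hF, hFi⟩
  simp only [hi, dif_pos]
  exact hpmd _ _ hF hi.choose_spec.1 (by rw [hFi, hi.choose_spec.2])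

theorem size_zero (h : IsPMD M) {r : ℕ} {σ : ℕ → ℕ} (hσ : IsPmd M r σ) : σ 0 = 0 := by
  obtain ⟨G, hG, hGr⟩ := hσ.exists_flat (i := 0) (by omega)
  rw [← hσ.size G 0 hG hGr]
  exact h.2.2.1 G hG (by rw [hGr]; rfl)

theorem size_one (h : IsPMD M) {r : ℕ} {σ : ℕ → ℕ} (hσ : IsPmd M r σ) (hr : 1 ≤ r) :
    σ 1 = 1 := by
  obtain ⟨G, hG, hGr⟩ := hσ.exists_flat (i := 1) hr
  rw [← hσ.size G 1 hG hGr]
  exact h.2.2.2 G hG (by rw [hGr]; rfl)

theorem rank_hyperplane {s : ℕ} (hr : M.eRk M.E = ((s + 3 : ℕ) : ℕ∞)) {H : Set (Fin n)}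
    (hH : IsHyperplane M H) : M.eRk H = ((s + 2 : ℕ) : ℕ∞) := by
  obtain ⟨i, hi⟩ := ENat.ne_top_iff_exists.1 (eRk_lt_top M H).ne
  have h2 := hH.2
  rw [← hi, hr] at h2
  have : i + 1 = s + 3 := by exact_mod_cast h2
  rw [← hi]
  exact_mod_cast (by omega : i = s + 2)

/-- The negation of `NotAddable` in terms of the sizes. -/
theorem bad_of_not {s : ℕ} {σ : ℕ → ℕ} (hr : M.eRk M.E = ((s + 3 : ℕ) : ℕ∞))
    (hσ : IsPmd M (s + 3) σ) {B : Set (Fin n)} (hcon : ¬ NotAddable M B) :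
    ∀ H : Set (Fin n), M.IsFlat H → M.eRk H = ((s + 2 : ℕ) : ℕ∞) →
      ∃ i ≤ s + 1, (B ∩ H).ncard = σ i := by
  simp only [NotAddable, not_exists, not_and, not_forall, not_not, exists_prop] at hcon
  intro H hH hHr
  obtain ⟨G, hG, hGr, hc⟩ := hcon H ⟨hH, by rw [hHr, hr]; norm_cast⟩
  obtain ⟨i, hi⟩ := ENat.ne_top_iff_exists.1 (eRk_lt_top M G).ne
  rw [← hi, hr] at hGr
  have : i + 2 ≤ s + 3 := by exact_mod_cast hGr
  exact ⟨i, by omega, by rw [hc]; exact hσ.size G i hG hi.symm⟩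

theorem maximal_of_cond (h : IsPMD M)
    (hcond : ∀ F₁ F₂ H : Set (Fin n), M.IsFlat F₁ → M.IsFlat F₂ → IsHyperplane M H →
      M.eRk F₂ = M.eRk F₁ + 1 → M.eRk F₂ + 3 ≤ M.eRk M.E → F₁.ncard + 2 ≤ F₂.ncard →
      2 * ((H.ncard : ℤ) - F₂.ncard) ^ 2 <
        ((F₂.ncard : ℤ) - F₁.ncard) * ((n : ℤ) - H.ncard)) : HyperplanesMaximal M := by
  intro B H₀ hH₀ hBH₀ hB
  have hE := h.1
  obtain ⟨r, hr⟩ := ENat.ne_top_iff_exists.1 (eRk_lt_top M M.E).ne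
  obtain ⟨σ, hσ⟩ := exists_isPmd h hr.symm
  obtain ⟨i, hi⟩ := ENat.ne_top_iff_exists.1 (eRk_lt_top M H₀).ne
  have hir : i + 1 = r := by
    have h2 := hH₀.2
    rw [← hi, ← hr] at h2
    exact_mod_cast h2
  -- the rank of B
  obtain ⟨b, hb⟩ := ENat.ne_top_iff_exists.1 (eRk_lt_top M B).ne
  have hbi : i < b := by
    by_contra hlt
    obtain ⟨H, hH, hBH', hHr⟩ := exists_flat_ge hE hσ.rank (i - b)
      (M.isFlat_closure B) (by rw [Matroid.eRk_closure_eq]; exact hb.symm) (by omega)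
    have hHr' : M.eRk H = (i : ℕ∞) := by rw [hHr]; congr 1; omega
    have hsub : B ⊆ H := (subset_closure' hE B).trans hBH'
    have : B = H := Set.eq_of_subset_of_ncard_le hsub
      (by rw [hBH₀, hσ.size H i hH hHr', hσ.size H₀ i hH₀.1 hi.symm]) (Set.toFinite _)
    apply hB
    rw [this]
    refine ⟨hH, ?_⟩
    rw [hHr', ← hr, ← hir]; push_cast; rfl
  rcases Nat.lt_or_ge r 3 with hr3 | hr3
  · -- rank at most two
    exfalso
    have hH₀c : H₀.ncard = i := by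
      have hi2 : i = 0 ∨ i = 1 := by omega
      rcases hi2 with rfl | rfl
      · exact h.2.2.1 H₀ hH₀.1 (by rw [← hi]; rfl)
      · exact h.2.2.2 H₀ hH₀.1 (by rw [← hi]; rfl)
    have h3 := M.eRk_le_encard B
    rw [← hb, ← (Set.toFinite B).cast_ncard_eq, hBH₀, hH₀c] at h3
    have : b ≤ i := by exact_mod_cast h3
    omega
  · obtain ⟨s, rfl⟩ : ∃ s, r = s + 3 := ⟨r - 3, by omega⟩
    by_contra hcon
    have hsB : ((s : ℕ) : ℕ∞) ≤ M.eRk B := by rw [← hb]; exact_mod_cast (by omega : s ≤ b)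
    have hH₀r := rank_hyperplane hr.symm hH₀
    have hHc := hσ.size H₀ (s + 2) hH₀.1 hH₀r
    obtain ⟨j, hj1, hj2, hj3, hj4⟩ := hσ.bad_bound (size_zero h hσ)
      (size_one h hσ (by omega)) (hBH₀.trans hHc) hsB (bad_of_not hr.symm hσ hcon)
    obtain ⟨F₁, hF₁, hF₁r⟩ := hσ.exists_flat (i := j) (by omega)
    obtain ⟨F₂, hF₂, hF₂r⟩ := hσ.exists_flat (i := j + 1) (by omega)
    have hc1 := hσ.size F₁ j hF₁ hF₁r
    have hc2 := hσ.size F₂ (j + 1) hF₂ hF₂r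
    have hn : σ (s + 3) = n := by
      have h2 := hσ.size univ (s + 3) (hE ▸ M.ground_isFlat) hσ.rank
      rw [← h2, Set.ncard_univ, Nat.card_eq_fintype_card, Fintype.card_fin]
    have h3 := hcond F₁ F₂ H₀ hF₁ hF₂ hH₀ (by rw [hF₁r, hF₂r]; norm_cast)
      (by rw [hF₂r, ← hr]; exact_mod_cast (by omega : j + 1 + 3 ≤ s + 3))
      (by rw [hc1, hc2]; exact hj3)
    rw [hc1, hc2, hHc, ← hn] at h3
    linarith

/-- `B` is a set of hyperplane size which is not a hyperplane: it is contained in no hyperplane. -/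
theorem not_subset_hyperplane {r : ℕ} {σ : ℕ → ℕ} (hσ : IsPmd M (r + 1) σ) {B H₀ H : Set (Fin n)}
    (hr : M.eRk M.E = ((r + 1 : ℕ) : ℕ∞))
    (hH₀ : M.IsFlat H₀) (hH₀r : M.eRk H₀ = (r : ℕ∞)) (hBH₀ : B.ncard = H₀.ncard)
    (hB : ¬ IsHyperplane M B) (hH : M.IsFlat H) (hHr : M.eRk H = (r : ℕ∞)) : ¬ B ⊆ H := by
  intro hsub
  have h1 : B = H := Set.eq_of_subset_of_ncard_le hsub
    (by rw [hBH₀, hσ.size H r hH hHr, hσ.size H₀ r hH₀ hH₀r]) (Set.toFinite _)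
  apply hB
  rw [h1]
  refine ⟨hH, ?_⟩
  rw [hHr, hr]; push_cast; rfl

/-- The window in which maximality is not settled, for flats `F`, `G` of rank `t + 1`, `t + 2` and a
hyperplane `H`. -/
theorem window_of_not (h : IsPMD M) {t m : ℕ} (ht : 1 ≤ t)
    (hr : M.eRk M.E = ((t + m + 4 : ℕ) : ℕ∞))
    (hfree : ∀ F : Set (Fin n), M.IsFlat F → M.eRk F ≤ t → (F.ncard : ℕ∞) = M.eRk F)
    (hline : ∀ F : Set (Fin n), M.IsFlat F → M.eRk F = ((t + 1 : ℕ) : ℕ∞) → t + 2 ≤ F.ncard)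
    (hnot : ¬ HyperplanesMaximal M) :
    m ≠ 0 ∧ ∀ F G H : Set (Fin n), M.IsFlat F → M.IsFlat G → IsHyperplane M H →
      M.eRk F = ((t + 1 : ℕ) : ℕ∞) → M.eRk G = ((t + 2 : ℕ) : ℕ∞) →
      (F.ncard = t + 2 ∨ F.ncard = t + 3) ∧
      ((F.ncard : ℤ) - t - 1) * ((n : ℤ) - t + 1) < ((H.ncard : ℤ) - t + 1) ^ 2 ∧
      ((G.ncard : ℤ) - F.ncard) * ((H.ncard : ℤ) - t + 1) ^ 2 <
        ((F.ncard : ℤ) - t - 1) * ((G.ncard : ℤ) - t) * ((n : ℤ) - t + 1) := by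
  simp only [HyperplanesMaximal, not_forall] at hnot
  obtain ⟨B, H₀, hH₀, hBH₀, hB, hcon⟩ := hnot
  have hE := h.1
  obtain ⟨τ, rfl⟩ : ∃ τ, t = τ + 1 := ⟨t - 1, by omega⟩
  have hr' : M.eRk M.E = ((τ + m + 2 + 3 : ℕ) : ℕ∞) := by rw [hr]; congr 1; omega
  obtain ⟨σ, hσ⟩ := exists_isPmd h hr'
  have hH₀r := rank_hyperplane hr' hH₀
  have hHc := hσ.size H₀ (τ + m + 2 + 2) hH₀.1 hH₀r
  have hbad := bad_of_not hr' hσ hcon
  have hspan : ∀ H : Set (Fin n), M.IsFlat H → M.eRk H = ((τ + m + 4 : ℕ) : ℕ∞) → ¬ B ⊆ H :=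
    fun H hH hHr => not_subset_hyperplane (r := τ + m + 4) hσ hr' hH₀.1 hH₀r hBH₀ hB hH hHr
  -- sizes of small flats
  have hσi : ∀ i, i ≤ τ + 1 → σ i = i := by
    intro i hi
    obtain ⟨F, hF, hFr⟩ := hσ.exists_flat (i := i) (by omega)
    have h1 := hfree F hF (by rw [hFr]; exact_mod_cast hi)
    rw [hσ.size F i hF hFr, hFr] at h1
    exact_mod_cast h1
  -- a base flat
  obtain ⟨F₀, hF₀, hF₀r, hF₀B⟩ : ∃ F₀, M.IsFlat F₀ ∧ M.eRk F₀ = (τ : ℕ∞) ∧ F₀ ⊆ B := by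
    obtain ⟨b, hb⟩ := ENat.ne_top_iff_exists.1 (eRk_lt_top M B).ne
    have hbτ : τ ≤ b := by
      by_contra hlt
      obtain ⟨H, hH, hBH', hHr⟩ := exists_flat_ge hE hσ.rank (τ + m + 4 - b)
        (M.isFlat_closure B) (by rw [Matroid.eRk_closure_eq]; exact hb.symm) (by omega)
      exact hspan H hH (by rw [hHr]; congr 1; omega) ((subset_closure' hE B).trans hBH')
    obtain ⟨J, hJB, hJ, hJc⟩ := Matroid.le_eRk_iff.1
      (show (τ : ℕ∞) ≤ M.eRk B by rw [← hb]; exact_mod_cast hbτ)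
    have hJr : M.eRk (M.closure J) = (τ : ℕ∞) := by
      rw [Matroid.eRk_closure_eq, hJ.eRk_eq_encard, hJc]
    have h1 := hσ.size (M.closure J) τ (M.isFlat_closure J) hJr
    rw [hσi τ (by omega)] at h1
    have h2 : J.ncard = τ := by
      have := hJc
      rw [← (Set.toFinite J).cast_ncard_eq] at this
      exact_mod_cast this
    have h3 : J = M.closure J := Set.eq_of_subset_of_ncard_le (subset_closure' hE J)
      (by rw [h1, h2]) (Set.toFinite _)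
    exact ⟨M.closure J, M.isFlat_closure J, hJr, by rw [← h3]; exact hJB⟩
  let C : Pool.Agent.H63.PD (Fin n) :=
    { M := M, σ := σ, τ := τ, m := m, F₀ := F₀, B := B
      pmd := hσ
      flat0 := hF₀
      rk0 := hF₀r
      sub0 := hF₀B
      one := by rw [hσi τ (by omega), hσi (τ + 1) le_rfl]
      card := by rw [hBH₀]; exact hHc
      span := hspan
      bad := hbad }
  have ha2' : ∀ F₂ : Set (Fin n), M.IsFlat F₂ → M.eRk F₂ = ((τ + 2 : ℕ) : ℕ∞) →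
      C.a 2 = (F₂.ncard : ℝ) - τ := by
    intro F₂ hF₂ hF₂r
    have hc2 := hσ.size F₂ (τ + 2) hF₂ hF₂r
    show (σ (τ + 2) : ℝ) - σ τ = _
    rw [← hc2, hσi τ (by omega)]
  have h3 : 3 ≤ C.a 2 := by
    obtain ⟨F₂, hF₂, hF₂r⟩ := hσ.exists_flat (i := τ + 2) (by omega)
    have h1 := hline F₂ hF₂ (by rw [hF₂r])
    have h2 : ((τ + 1 + 2 : ℕ) : ℝ) ≤ F₂.ncard := by exact_mod_cast h1
    push_cast at h2
    rw [ha2' F₂ hF₂ hF₂r]; linarith
  refine ⟨fun hm => Pool.Agent.H92.PY.zero_all (C := C) hm h3, ?_⟩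
  intro F₂ F₃ H hF₂ hF₃ hH hF₂r hF₃r
  have hc3 := hσ.size F₃ (τ + 3) hF₃ (by rw [hF₃r])
  have hcH := hσ.size H (τ + m + 2 + 2) hH.1 (rank_hyperplane hr' hH)
  have hn : σ (τ + m + 2 + 3) = n := by
    have h2 := hσ.size univ (τ + m + 2 + 3) (hE ▸ M.ground_isFlat) hσ.rank
    rw [← h2, Set.ncard_univ, Nat.card_eq_fintype_card, Fintype.card_fin]
  have ha2 : C.a 2 = (F₂.ncard : ℝ) - τ := ha2' F₂ hF₂ (by rw [hF₂r])
  have ha3 : C.a 3 = (F₃.ncard : ℝ) - τ := by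
    show (σ (τ + 3) : ℝ) - σ τ = _
    rw [← hc3, hσi τ (by omega)]
  have hk : C.k = (H.ncard : ℝ) - τ := by
    show (σ (τ + (m + 4)) : ℝ) - σ τ = _
    rw [hcH, hσi τ (by omega), show τ + (m + 4) = τ + m + 2 + 2 by omega]
  have hv : C.v = (n : ℝ) - τ := by
    show (σ (τ + (m + 5)) : ℝ) - σ τ = _
    rw [hσi τ (by omega), show τ + (m + 5) = τ + m + 2 + 3 by omega, hn]
  have hw := not_not.1 (fun hrem => Pool.Agent.H92.PX.main_all (C := C) h3 hrem)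
  obtain ⟨w1, w2, w3⟩ := hw
  have hvpos : 0 < C.v := by have := C.v_pos; linarith
  refine ⟨?_, ?_, ?_⟩
  · rcases w1 with w1 | w1
    · left
      rw [ha2] at w1
      have h4 : (F₂.ncard : ℝ) = ((τ + 3 : ℕ) : ℝ) := by push_cast; linarith
      have h5 : F₂.ncard = τ + 3 := by exact_mod_cast h4
      omega
    · right
      rw [ha2] at w1
      have h4 : (F₂.ncard : ℝ) = ((τ + 4 : ℕ) : ℝ) := by push_cast; linarith
      have h5 : F₂.ncard = τ + 4 := by exact_mod_cast h4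
      omega
  · rw [Pool.Agent.H63.PD.k0, lt_div_iff₀ hvpos, hk, hv, ha2] at w2
    have h4 : (((F₂.ncard : ℤ) - (τ + 1 : ℕ) - 1) * ((n : ℤ) - (τ + 1 : ℕ) + 1) : ℝ) <
        (((H.ncard : ℤ) - (τ + 1 : ℕ) + 1) ^ 2 : ℝ) := by
      push_cast
      ring_nf at w2 ⊢
      linarith
    exact_mod_cast h4
  · rw [Pool.Agent.H63.PD.k0, mul_div_assoc', div_lt_iff₀ hvpos, hk, hv, ha2, ha3] at w3
    have h4 : (((F₃.ncard : ℤ) - (F₂.ncard : ℤ)) * ((H.ncard : ℤ) - (τ + 1 : ℕ) + 1) ^ 2 : ℝ) <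
        (((F₂.ncard : ℤ) - (τ + 1 : ℕ) - 1) * ((F₃.ncard : ℤ) - (τ + 1 : ℕ)) *
          ((n : ℤ) - (τ + 1 : ℕ) + 1) : ℝ) := by
      push_cast
      ring_nf at w3 ⊢
      linarith
    exact_mod_cast h4

/-- if the flats of rank at most `r - 3` are free, the hyperplane family is maximal -/
theorem maximal_of_free (h : IsPMD M)
    (hlow : ∀ F : Set (Fin n), M.IsFlat F → M.eRk F + 3 ≤ M.eRk M.E →
      (F.ncard : ℕ∞) = M.eRk F) : HyperplanesMaximal M := by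
  apply maximal_of_cond h
  intro F₁ F₂ H hF₁ hF₂ _ h12 h2 hc
  exfalso
  have e2 := hlow F₂ hF₂ h2
  have e1 := hlow F₁ hF₁ (le_trans (by gcongr; rw [h12]; exact le_self_add) h2)
  rw [h12, ← e1] at e2
  have : F₂.ncard = F₁.ncard + 1 := by exact_mod_cast e2
  omega

end

/-- Let `M` be any perfect matroid design of rank `r` with sizes `α_i`, on `v = n` points, with
hyperplanes of size `k`. Then the hyperplane family of `M` is a maximal `A(T,k,v)`, or there is a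
`t ≥ 1` with `r ≥ t + 5`, `α_i = i` for all `i ≤ t`, `α_{t+1} ∈ {t + 2, t + 3}`,
`(α_{t+1} - t - 1) (v - t + 1) < (k - t + 1)²` and
`(α_{t+2} - α_{t+1}) (k - t + 1)² < (α_{t+1} - t - 1) (α_{t+2} - t) (v - t + 1)`.

For `t = 1` the exceptions have rank at least six and either `α_2 = 3`, `v < k²` and
`(α_3 - 3) k² < (α_3 - 1) v`, or `α_2 = 4`, `2 v < k²` and `(α_3 - 4) k² < 2 (α_3 - 1) v`. -/
theorem result (n : ℕ) (M : Matroid (Fin n)) (h : IsPMD M) :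
    HyperplanesMaximal M ∨
    ∃ t : ℕ, 1 ≤ t ∧ ((t + 5 : ℕ) : ℕ∞) ≤ M.eRk M.E ∧
      (∀ F : Set (Fin n), M.IsFlat F → M.eRk F ≤ t → (F.ncard : ℕ∞) = M.eRk F) ∧
      ∀ F G H : Set (Fin n), M.IsFlat F → M.IsFlat G → IsHyperplane M H →
        M.eRk F = ((t + 1 : ℕ) : ℕ∞) → M.eRk G = ((t + 2 : ℕ) : ℕ∞) →
        (F.ncard = t + 2 ∨ F.ncard = t + 3) ∧
        ((F.ncard : ℤ) - t - 1) * ((n : ℤ) - t + 1) < ((H.ncard : ℤ) - t + 1) ^ 2 ∧
        ((G.ncard : ℤ) - F.ncard) * ((H.ncard : ℤ) - t + 1) ^ 2 <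
          ((F.ncard : ℤ) - t - 1) * ((G.ncard : ℤ) - t) * ((n : ℤ) - t + 1) := by
  classical
  by_cases hmax : HyperplanesMaximal M
  · exact Or.inl hmax
  right
  obtain ⟨r, hr⟩ := ENat.ne_top_iff_exists.1 (Pool.Agent.H69.Pmd.eRk_lt_top M M.E).ne
  -- the largest free rank
  let P : ℕ → Prop := fun t => ∀ F : Set (Fin n), M.IsFlat F → M.eRk F ≤ t →
    (F.ncard : ℕ∞) = M.eRk F
  have hP1 : P 1 := by
    intro F hF hFr
    obtain ⟨i, hi⟩ := ENat.ne_top_iff_exists.1 (Pool.Agent.H69.Pmd.eRk_lt_top M F).ne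
    rw [← hi] at hFr ⊢
    have h6 : i ≤ 1 := by exact_mod_cast hFr
    have hi2 : i = 0 ∨ i = 1 := by omega
    rcases hi2 with rfl | rfl
    · rw [h.2.2.1 F hF (by rw [← hi]; rfl)]
    · rw [h.2.2.2 F hF (by rw [← hi]; rfl)]
  have hPr : ∀ t, r ≤ t + 3 → ¬ P t := by
    intro t htr hPt
    apply hmax
    apply maximal_of_free h
    intro F hF hFr
    apply hPt F hF
    obtain ⟨i, hi⟩ := ENat.ne_top_iff_exists.1 (Pool.Agent.H69.Pmd.eRk_lt_top M F).ne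
    rw [← hi, ← hr] at hFr
    have h6 : i + 3 ≤ r := by exact_mod_cast hFr
    rw [← hi]
    exact_mod_cast (by omega : i ≤ t)
  obtain ⟨t, ht, hPt, hPt1⟩ : ∃ t, 1 ≤ t ∧ P t ∧ ¬ P (t + 1) := by
    by_contra hcon
    push Not at hcon
    have hall : ∀ t, 1 ≤ t → P t := by
      intro t ht
      induction t, ht using Nat.le_induction with
      | base => exact hP1
      | succ t ht ih => exact hcon t ht ih
    exact hPr (r + 1) (by omega) (hall (r + 1) (by omega))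
  have hr4 : t + 4 ≤ r := by
    by_contra hlt
    exact hPr t (by omega) hPt
  obtain ⟨m, rfl⟩ : ∃ m, r = t + m + 4 := ⟨r - t - 4, by omega⟩
  suffices hline : ∀ F : Set (Fin n), M.IsFlat F → M.eRk F = ((t + 1 : ℕ) : ℕ∞) →
      t + 2 ≤ F.ncard by
    obtain ⟨hm, hw⟩ := window_of_not h ht hr.symm hPt hline hmax
    exact ⟨t, ht, by rw [← hr]; exact_mod_cast (by omega : t + 5 ≤ t + m + 4), hPt, hw⟩
  -- flats of rank `t + 1` have at least `t + 2` points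
  intro F hF hFr
  simp only [P, not_forall] at hPt1
  obtain ⟨G, hG, hGr, hGc⟩ := hPt1
  obtain ⟨i, hi⟩ := ENat.ne_top_iff_exists.1 (Pool.Agent.H69.Pmd.eRk_lt_top M G).ne
  have hit : i = t + 1 := by
    rw [← hi] at hGr
    have h6 : i ≤ t + 1 := by exact_mod_cast hGr
    by_contra hne
    apply hGc
    apply hPt G hG
    rw [← hi]
    exact_mod_cast (by omega : i ≤ t)
  subst hit
  rw [h.2.1 F G hF hG (by rw [hFr, hi])]
  have h7 := M.eRk_le_encard G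
  rw [← (Set.toFinite G).cast_ncard_eq, ← hi] at h7
  have h8 : t + 1 ≤ G.ncard := by exact_mod_cast h7
  have h9 : G.ncard ≠ t + 1 := by
    intro h10
    apply hGc
    rw [h10, ← hi]
  omega

end Pool.Agent.Results.MP_f8e529_co.NarrowWindow
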