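import Mathlib
import Pool.Agent.H69.PmdBound

/-!
# Maximality of hyperplane families of perfect matroid designs

Rank at most four; a general size condition in every rank; sets containing a flat of rank `r - 3`.
-/

open Set

namespace Pool.Agent.Results.MP_f8e529_co.RankFour

/-- A perfect matroid design on the ground set `Fin n`, without loops and parallel elements. -/
def IsPMD {n : ℕ} (M : Matroid (Fin n)) : Prop :=
  M.E = univ ∧
  (∀ F₁ F₂ : Set (Fin n), M.IsFlat F₁ → M.IsFlat F₂ → M.eRk F₁ = M.eRk F₂ →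
    F₁.ncard = F₂.ncard) ∧
  (∀ F : Set (Fin n), M.IsFlat F → M.eRk F = 0 → F.ncard = 0) ∧
  (∀ F : Set (Fin n), M.IsFlat F → M.eRk F = 1 → F.ncard = 1)

/-- `H` is a hyperplane: a flat of rank `r - 1`. -/
def IsHyperplane {n : ℕ} (M : Matroid (Fin n)) (H : Set (Fin n)) : Prop :=
  M.IsFlat H ∧ M.eRk H + 1 = M.eRk M.E

/-- `B` cannot be added to the hyperplane family: some hyperplane `H` meets `B` in a number of
points which is not the size of a flat of rank at most `r - 2`. -/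
def NotAddable {n : ℕ} (M : Matroid (Fin n)) (B : Set (Fin n)) : Prop :=
  ∃ H : Set (Fin n), IsHyperplane M H ∧
    ∀ F : Set (Fin n), M.IsFlat F → M.eRk F + 2 ≤ M.eRk M.E → (B ∩ H).ncard ≠ F.ncard

/-- The hyperplane family is a maximal `A(T,k,v)`. -/
def HyperplanesMaximal {n : ℕ} (M : Matroid (Fin n)) : Prop :=
  ∀ B H₀ : Set (Fin n), IsHyperplane M H₀ → B.ncard = H₀.ncard → ¬ IsHyperplane M B →
    NotAddable M B

section

open Pool.Agent.H69.Pmd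

variable {n : ℕ} {M : Matroid (Fin n)}

theorem exists_isPmd (h : IsPMD M) {r : ℕ} (hr : M.eRk M.E = (r : ℕ∞)) :
    ∃ σ : ℕ → ℕ, IsPmd M r σ := by
  classical
  obtain ⟨hE, hpmd, h0, h1⟩ := h
  refine ⟨fun i => if hi : ∃ F, M.IsFlat F ∧ M.eRk F = (i : ℕ∞) then hi.choose.ncard else 0,
    hE, by rw [← hE]; exact hr, ?_⟩
  intro F i hF hFi
  have hi : ∃ F, M.IsFlat F ∧ M.eRk F = (i : ℕ∞) := ⟨F, hF, hFi⟩
  simp only [hi, dif_pos]
  exact hpmd _ _ hF hi.choose_spec.1 (by rw [hFi, hi.choose_spec.2])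

theorem size_zero (h : IsPMD M) {r : ℕ} {σ : ℕ → ℕ} (hσ : IsPmd M r σ) : σ 0 = 0 := by
  obtain ⟨G, hG, hGr⟩ := hσ.exists_flat (i := 0) (by omega)
  rw [← hσ.size G 0 hG hGr]
  exact h.2.2.1 G hG (by rw [hGr]; rfl)

theorem size_one (h : IsPMD M) {r : ℕ} {σ : ℕ → ℕ} (hσ : IsPmd M r σ) (hr : 1 ≤ r) :
    σ 1 = 1 := by
  obtain ⟨G, hG, hGr⟩ := hσ.exists_flat (i := 1) hr
  rw [← hσ.size G 1 hG hGr]
  exact h.2.2.2 G hG (by rw [hGr]; rfl)

theorem rank_hyperplane {s : ℕ} (hr : M.eRk M.E = ((s + 3 : ℕ) : ℕ∞)) {H : Set (Fin n)}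
    (hH : IsHyperplane M H) : M.eRk H = ((s + 2 : ℕ) : ℕ∞) := by
  obtain ⟨i, hi⟩ := ENat.ne_top_iff_exists.1 (eRk_lt_top M H).ne
  have h2 := hH.2
  rw [← hi, hr] at h2
  have : i + 1 = s + 3 := by exact_mod_cast h2
  rw [← hi]
  exact_mod_cast (by omega : i = s + 2)

/-- The negation of `NotAddable` in terms of the sizes. -/
theorem bad_of_not {s : ℕ} {σ : ℕ → ℕ} (hr : M.eRk M.E = ((s + 3 : ℕ) : ℕ∞))
    (hσ : IsPmd M (s + 3) σ) {B : Set (Fin n)} (hcon : ¬ NotAddable M B) :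
    ∀ H : Set (Fin n), M.IsFlat H → M.eRk H = ((s + 2 : ℕ) : ℕ∞) →
      ∃ i ≤ s + 1, (B ∩ H).ncard = σ i := by
  simp only [NotAddable, not_exists, not_and, not_forall, not_not, exists_prop] at hcon
  intro H hH hHr
  obtain ⟨G, hG, hGr, hc⟩ := hcon H ⟨hH, by rw [hHr, hr]; norm_cast⟩
  obtain ⟨i, hi⟩ := ENat.ne_top_iff_exists.1 (eRk_lt_top M G).ne
  rw [← hi, hr] at hGr
  have : i + 2 ≤ s + 3 := by exact_mod_cast hGr
  exact ⟨i, by omega, by rw [hc]; exact hσ.size G i hG hi.symm⟩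

/-- A set of hyperplane size containing a flat of rank `r - 3`. -/
theorem notAddable_of_flat (h : IsPMD M) {B H₀ F : Set (Fin n)} (hH₀ : IsHyperplane M H₀)
    (hB : B.ncard = H₀.ncard) (hFB : F ⊆ B) (hF : M.IsFlat F)
    (hFr : M.eRk F + 3 = M.eRk M.E) : NotAddable M B := by
  by_contra hcon
  obtain ⟨s, hs⟩ := ENat.ne_top_iff_exists.1 (eRk_lt_top M F).ne
  have hr : M.eRk M.E = ((s + 3 : ℕ) : ℕ∞) := by
    rw [← hFr, ← hs]; push_cast; rfl
  obtain ⟨σ, hσ⟩ := exists_isPmd h hr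
  refine hσ.core (size_zero h hσ) (size_one h hσ (by omega)) hF hs.symm hFB ?_
    (bad_of_not hr hσ hcon)
  rw [hB]; exact hσ.size H₀ (s + 2) hH₀.1 (rank_hyperplane hr hH₀)

theorem maximal_of_cond (h : IsPMD M)
    (hcond : ∀ F₁ F₂ H : Set (Fin n), M.IsFlat F₁ → M.IsFlat F₂ → IsHyperplane M H →
      M.eRk F₂ = M.eRk F₁ + 1 → M.eRk F₂ + 3 ≤ M.eRk M.E → F₁.ncard + 2 ≤ F₂.ncard →
      2 * ((H.ncard : ℤ) - F₂.ncard) ^ 2 <
        ((F₂.ncard : ℤ) - F₁.ncard) * ((n : ℤ) - H.ncard)) : HyperplanesMaximal M := by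
  intro B H₀ hH₀ hBH₀ hB
  have hE := h.1
  obtain ⟨r, hr⟩ := ENat.ne_top_iff_exists.1 (eRk_lt_top M M.E).ne
  obtain ⟨σ, hσ⟩ := exists_isPmd h hr.symm
  obtain ⟨i, hi⟩ := ENat.ne_top_iff_exists.1 (eRk_lt_top M H₀).ne
  have hir : i + 1 = r := by
    have h2 := hH₀.2
    rw [← hi, ← hr] at h2
    exact_mod_cast h2
  -- the rank of B
  obtain ⟨b, hb⟩ := ENat.ne_top_iff_exists.1 (eRk_lt_top M B).ne
  have hbi : i < b := by
    by_contra hlt
    obtain ⟨H, hH, hBH', hHr⟩ := exists_flat_ge hE hσ.rank (i - b)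
      (M.isFlat_closure B) (by rw [Matroid.eRk_closure_eq]; exact hb.symm) (by omega)
    have hHr' : M.eRk H = (i : ℕ∞) := by rw [hHr]; congr 1; omega
    have hsub : B ⊆ H := (subset_closure' hE B).trans hBH'
    have : B = H := Set.eq_of_subset_of_ncard_le hsub
      (by rw [hBH₀, hσ.size H i hH hHr', hσ.size H₀ i hH₀.1 hi.symm]) (Set.toFinite _)
    apply hB
    rw [this]
    refine ⟨hH, ?_⟩
    rw [hHr', ← hr, ← hir]; push_cast; rfl
  rcases Nat.lt_or_ge r 3 with hr3 | hr3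
  · -- rank at most two
    exfalso
    have hH₀c : H₀.ncard = i := by
      have hi2 : i = 0 ∨ i = 1 := by omega
      rcases hi2 with rfl | rfl
      · exact h.2.2.1 H₀ hH₀.1 (by rw [← hi]; rfl)
      · exact h.2.2.2 H₀ hH₀.1 (by rw [← hi]; rfl)
    have h3 := M.eRk_le_encard B
    rw [← hb, ← (Set.toFinite B).cast_ncard_eq, hBH₀, hH₀c] at h3
    have : b ≤ i := by exact_mod_cast h3
    omega
  · obtain ⟨s, rfl⟩ : ∃ s, r = s + 3 := ⟨r - 3, by omega⟩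
    by_contra hcon
    have hsB : ((s : ℕ) : ℕ∞) ≤ M.eRk B := by rw [← hb]; exact_mod_cast (by omega : s ≤ b)
    have hH₀r := rank_hyperplane hr.symm hH₀
    have hHc := hσ.size H₀ (s + 2) hH₀.1 hH₀r
    obtain ⟨j, hj1, hj2, hj3, hj4⟩ := hσ.bad_bound (size_zero h hσ)
      (size_one h hσ (by omega)) (hBH₀.trans hHc) hsB (bad_of_not hr.symm hσ hcon)
    obtain ⟨F₁, hF₁, hF₁r⟩ := hσ.exists_flat (i := j) (by omega)
    obtain ⟨F₂, hF₂, hF₂r⟩ := hσ.exists_flat (i := j + 1) (by omega)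
    have hc1 := hσ.size F₁ j hF₁ hF₁r
    have hc2 := hσ.size F₂ (j + 1) hF₂ hF₂r
    have hn : σ (s + 3) = n := by
      have h2 := hσ.size univ (s + 3) (hE ▸ M.ground_isFlat) hσ.rank
      rw [← h2, Set.ncard_univ, Nat.card_eq_fintype_card, Fintype.card_fin]
    have h3 := hcond F₁ F₂ H₀ hF₁ hF₂ hH₀ (by rw [hF₁r, hF₂r]; norm_cast)
      (by rw [hF₂r, ← hr]; exact_mod_cast (by omega : j + 1 + 3 ≤ s + 3))
      (by rw [hc1, hc2]; exact hj3)
    rw [hc1, hc2, hHc, ← hn] at h3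
    linarith

end

/-- For every perfect matroid design `M` of rank `r` with sizes `α_i`, `k = α_{r-1}`, `v = α_r`:
* if `r ≤ 4`, then the hyperplane family is a maximal `A(T,k,v)`;
* the same holds if `α_i = i` for all `i ≤ r - 3`;
* the same holds if `2 (k - α_i)² < (α_i - α_{i-1}) (v - k)` for all `1 ≤ i ≤ r - 3` with
  `α_i ≥ α_{i-1} + 2`;
* a set of size `k` which contains a flat of rank `r - 3` meets some hyperplane in a number of
  points which is not in `T`. -/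
theorem result (n : ℕ) (M : Matroid (Fin n)) (h : IsPMD M) :
    (M.eRk M.E ≤ 4 → HyperplanesMaximal M) ∧
    ((∀ F : Set (Fin n), M.IsFlat F → M.eRk F + 3 ≤ M.eRk M.E → (F.ncard : ℕ∞) = M.eRk F) →
      HyperplanesMaximal M) ∧
    ((∀ F₁ F₂ H : Set (Fin n), M.IsFlat F₁ → M.IsFlat F₂ → IsHyperplane M H →
      M.eRk F₂ = M.eRk F₁ + 1 → M.eRk F₂ + 3 ≤ M.eRk M.E → F₁.ncard + 2 ≤ F₂.ncard →
      2 * ((H.ncard : ℤ) - F₂.ncard) ^ 2 <
        ((F₂.ncard : ℤ) - F₁.ncard) * ((n : ℤ) - H.ncard)) → HyperplanesMaximal M) ∧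
    (∀ B H₀ F : Set (Fin n), IsHyperplane M H₀ → B.ncard = H₀.ncard → F ⊆ B → M.IsFlat F →
      M.eRk F + 3 = M.eRk M.E → NotAddable M B) := by
  have key : (∀ F : Set (Fin n), M.IsFlat F → M.eRk F + 3 ≤ M.eRk M.E →
      (F.ncard : ℕ∞) = M.eRk F) → HyperplanesMaximal M := by
    intro hlow
    apply maximal_of_cond h
    intro F₁ F₂ H hF₁ hF₂ _ h12 h2 hc
    exfalso
    have e2 := hlow F₂ hF₂ h2
    have e1 := hlow F₁ hF₁ (le_trans (by gcongr; rw [h12]; exact le_self_add) h2)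
    rw [h12, ← e1] at e2
    have : F₂.ncard = F₁.ncard + 1 := by exact_mod_cast e2
    omega
  refine ⟨fun h4 => key ?_, key, maximal_of_cond h,
    fun B H₀ F hH₀ hB hFB hF hFr => notAddable_of_flat h hH₀ hB hFB hF hFr⟩
  intro F hF hFr
  have h5 := hFr.trans h4
  obtain ⟨i, hi⟩ := ENat.ne_top_iff_exists.1 (Pool.Agent.H69.Pmd.eRk_lt_top M F).ne
  rw [← hi] at h5 ⊢
  have h6 : i + 3 ≤ 4 := by exact_mod_cast h5
  have hi2 : i = 0 ∨ i = 1 := by omega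
  rcases hi2 with rfl | rfl
  · rw [h.2.2.1 F hF (by rw [← hi]; rfl)]
  · rw [h.2.2.2 F hF (by rw [← hi]; rfl)]

end Pool.Agent.Results.MP_f8e529_co.RankFour
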