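import Pool.Agent.H92.KT.Ci

/-!
# The sets that could be added to the hyperplane family of a perfect matroid design

Definitions: `IsPMD`, `IsHyperplane`, `NotAddable`, `HasSizes`, `Equation`
(`Pool/Agent/H92/KT/Ex.lean`) and `shifted` (`Pool/Agent/H92/KT/Ch.lean`).
-/

open Set Matroid

namespace Pool.Agent.Results.MP_f8e529_co.SetStructure

open Pool.Agent.H92.KT.Ex

/-- Let `M` be a perfect matroid design of rank `r` with `s i` points on the flats of rank `i`,
`s i = i` for `i ≤ t` and `s (t + 1) ≠ t + 1`, and let `B` be a set of `k = s (r - 1)` points.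
If `B` is not a hyperplane and could be added to the hyperplane family, then `s (t + 1)` is `t + 2`
or `t + 3` and `Equation r t s` holds. If `s (t + 1) = t + 2`, then this happens if and only if
`Equation r t s` holds and the flats of rank `i` of the restriction of `M` to `B` have `i` points for
`i ≤ t + 1` and `s (i - 1)` points for `i ≥ t + 2`. -/
theorem result (n : ℕ) (M : Matroid (Fin n)) (r t : ℕ) (s : ℕ → ℕ) (h : IsPMD M)
    (hr : M.eRk M.E = (r : ℕ∞)) (hs : HasSizes M s r) (ht : 1 ≤ t) (htr : t + 4 ≤ r)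
    (hfree : ∀ i ≤ t, s i = i) (hne : s (t + 1) ≠ t + 1) (B : Set (Fin n))
    (hB : B.ncard = s (r - 1)) :
    (¬ IsHyperplane M B ∧ ¬ NotAddable M B →
      (s (t + 1) = t + 2 ∨ s (t + 1) = t + 3) ∧ Equation r t s) ∧
    (s (t + 1) = t + 2 → (¬ IsHyperplane M B ∧ ¬ NotAddable M B ↔
      HasSizes (M ↾ B) (shifted t s) r ∧ Equation r t s)) :=
  structure_of_exceptions n M r t s h hr hs ht htr hfree hne B hB

end Pool.Agent.Results.MP_f8e529_co.SetStructure
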